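import Mathlib
import Pool.Agent.Hhelper39.CohDefs
import Pool.Agent.Hhelper39.CohMain

/-!
# The coherent rank of graphs with three eigenvalues is unbounded

For every `N` there is a connected graph with exactly three distinct eigenvalues whose coherent
closure has dimension at least `N`.

Construction.  Let `D ≥ 3` be odd, `V = 𝔽₃^D`, `s = 3^(D-1)`, and let `P` be the set of the
`r = (3^D - 1)/2` parallel classes of hyperplanes of `V`.  Take `r + 1` copies (cells) of `V`: four
of type I, the others of type II and arranged in twin pairs.  For each cell `i` choose a bijection
`β i` from the set of other cells to `P`.  Points of different cells `i, j` are compared through the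
blocks of the classes `β i j`, `β j i` which contain them: they are adjacent iff the labels of the
blocks agree (if `i` or `j` is of type I), adjacent iff the labels differ (both of type II, not
twins), and always adjacent (twins).  Type I cells are cocliques; inside a type II cell `i` two
points are adjacent iff they are in different blocks of the class `β i i'`, `i'` the twin of `i`.
Then `A² = s² I + s(s-1)/2 g gᵀ` with `g = 1` on type I and `g = 2` on type II, and the spectrum is
`{s, -s, (3s-4)s}`, for any choice of the bijections.

If the four type I classes of every type II cell are `e₀, e₁, e₂, e₀ + e₁`, the coherent closure
recognises, for type II cells `i, k`, whether the class `β i k` is one of the nine further classes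
in the span of `e₀, e₁, e₂`, and hence it contains a matrix whose column entries encode the number
of such `i` for given `k`.  These numbers can be given arbitrarily many different values.
-/

set_option autoImplicit false

namespace Pool.Agent.Results.MP_ce2158_co.UnboundedCoherentRank

open Pool.Agent.Hhelper39.CoherentRank

/-- **Main result.** For every `N` there is a (finite, simple) connected graph whose adjacency matrix
has exactly three distinct eigenvalues and whose coherent rank is at least `N`. -/
theorem result : ∀ N : ℕ, ∃ (X : Type) (_ : Fintype X) (_ : DecidableEq X) (Γ : SimpleGraph X)
    (_ : DecidableRel Γ.Adj), InG3 Γ ∧ N ≤ coherentRank Γ :=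
  main

end Pool.Agent.Results.MP_ce2158_co.UnboundedCoherentRank
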